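import Pool.Agent.LKC.Pub

/-!
# The Komlós–Sós median degree conjecture for caterpillars (helper60)
-/

set_option autoImplicit false

open Pool.Agent.LKC

open scoped Classical in
/-- Let `r > 0`, let `G` be a graph with at least `r |V(G)|` vertices of degree at least `k`, and
let `T` be a tree with `k` edges and `t` non-leaves. Then `G` contains `T` in each of the following
cases: (i) `T` has a colour class `A` with `a` vertices such that all non-leaves outside `A` lie on
one path of `T`, and `(t - 2) r + (a - 1) (1 - r) < k r` or `(a - 1) (1 + r) < r (k + 1)`;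
(ii) `r ≥ 1 / 2`, `T` is a caterpillar and `2 t ≤ k + 4`. -/
theorem Pool.Agent.Results.MP_f23545_co.Caterpillars.result :
    ∀ (V : Type) [Fintype V] [Nonempty V] (G : SimpleGraph V) (k : ℕ) (r : ℝ), 0 < r →
      r * Fintype.card V ≤ big G k →
      ∀ (W : Type) [Fintype W] (T : SimpleGraph W), T.IsTree → Fintype.card W = k + 1 →
        ((∃ A : Finset W, IsColourClass T A ∧ OnPath T (fun z => z ∉ A ∧ 2 ≤ T.degree z) ∧
            (((nonleaves T : ℝ) - 2) * r + ((A.card : ℝ) - 1) * (1 - r) < k * r ∨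
              ((A.card : ℝ) - 1) * (1 + r) < r * (k + 1))) ∨
          (1 / 2 ≤ r ∧ OnPath T (fun z => 2 ≤ T.degree z) ∧ 2 * nonleaves T ≤ k + 4)) →
        Contains G T := by
  intro V _ _ G k r hr hL W _ T hT hW h
  rcases h with ⟨A, hA, ⟨x, y, p, hp, hall⟩, h⟩ | ⟨hr2, ⟨x, y, p, hp, hall⟩, h⟩
  · exact path_case hr hL hT hW hA ⟨x, y, p, hp, fun z h1 h2 => hall z ⟨h1, h2⟩⟩ h
  · exact cat_half (half_of_le hr2 hL) hT hW ⟨x, y, p, hp, hall⟩ h
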