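import Pool.Agent.LKC.Pub

/-!
# The Komlós–Sós median degree conjecture for trees with many leaves (helper60)
-/

set_option autoImplicit false

open Pool.Agent.LKC

open scoped Classical in
/-- Let `r > 0`, let `G` be a graph with at least `r |V(G)|` vertices of degree at least `k`, and
let `T` be any tree with `k` edges and `t` non-leaves. Then `G` contains `T` in each of the
following cases: (i) `T` has a colour class `A` with `a` vertices such that, with `b` the number of
non-leaves outside `A` and `s` the number of those without a leaf neighbour,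
`2 (t - 2) r + (a + s - 1) (1 - r) < k r`, or `(2 (t - 2) + b - 1) r + (a - 1) (1 - r) < k r`, or
`(a - 1) (1 + 4 r) < r (k + 3)`; (ii) `r ≥ 1 / 2` and one of these holds: `4 t + t₀ ≤ k + 8`, where
`t₀` is the number of non-leaves without a leaf neighbour; `5 t ≤ k + 10`; every non-leaf of `T`
has at least three leaf neighbours. -/
theorem Pool.Agent.Results.MP_f23545_co.LeafyTrees.result :
    ∀ (V : Type) [Fintype V] [Nonempty V] (G : SimpleGraph V) (k : ℕ) (r : ℝ), 0 < r →
      r * Fintype.card V ≤ big G k →
      ∀ (W : Type) [Fintype W] (T : SimpleGraph W), T.IsTree → Fintype.card W = k + 1 →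
        ((∃ A : Finset W, IsColourClass T A ∧
            (2 * ((nonleaves T : ℝ) - 2) * r + ((A.card : ℝ) + bare T A - 1) * (1 - r) < k * r ∨
              (2 * ((nonleaves T : ℝ) - 2) + ((Bp T A).card - 1)) * r +
                ((A.card : ℝ) - 1) * (1 - r) < k * r ∨
              ((A.card : ℝ) - 1) * (1 + 4 * r) < r * (k + 3))) ∨
          (1 / 2 ≤ r ∧ (4 * nonleaves T + bare T ∅ ≤ k + 8 ∨ 5 * nonleaves T ≤ k + 10 ∨
            ∀ v, 2 ≤ T.degree v →
              3 ≤ (Finset.univ.filter fun z => T.Adj v z ∧ T.degree z = 1).card))) →
        Contains G T := by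
  intro V _ _ G k r hr hL W _ T hT hW h
  rcases h with ⟨A, hA, h⟩ | ⟨hr2, ht⟩
  · exact gen_case hr hL hT hW hA h
  · apply gen_half (half_of_le hr2 hL) hT hW
    rcases ht with ht | ht | ht
    · exact Or.inl ht
    · exact Or.inr ht
    · left
      have h1 : bare T (∅ : Finset W) = 0 := by
        apply bare_zero
        intro v hv
        have h2 := ht v hv
        have h3 : (Finset.univ.filter fun z => T.Adj v z ∧ T.degree z = 1).Nonempty := by
          rw [← Finset.card_pos]
          omega
        obtain ⟨z, hz⟩ := h3
        rw [Finset.mem_filter] at hz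
        exact ⟨z, hz.2.1, hz.2.2⟩
      have h2 := leaves_ge T 3 (by
        intro v hv
        refine (ht v hv).trans (Finset.card_le_card ?_)
        intro z hz
        rw [Finset.mem_filter] at hz ⊢
        exact ⟨hz.1, hz.2.1, by omega⟩)
      omega
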