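import Pool.Agent.LKC.Pub

/-!
# The Komlós–Sós median degree conjecture for lobsters (helper60)
-/

set_option autoImplicit false

open Pool.Agent.LKC

open scoped Classical in
/-- Let `r > 0`, let `G` be a graph with at least `r |V(G)|` vertices of degree at least `k`, and
let `T` be a lobster with `k` edges and `t` non-leaves. Then `G` contains `T` in each of the
following cases: (i) `T` has a colour class `A` with `a` vertices such that, with `s` the number of
non-leaves outside `A` without a leaf neighbour, `(t - 2) r + (a + s - 1) (1 - r) < k r`;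
(ii) `r ≥ 1 / 2` and `2 t + t₀ ≤ k + 4`, where `t₀` is the number of non-leaves without a leaf
neighbour; (iii) `r ≥ 1 / 2` and every non-leaf of `T` has a leaf neighbour. -/
theorem Pool.Agent.Results.MP_f23545_co.Lobsters.result :
    ∀ (V : Type) [Fintype V] [Nonempty V] (G : SimpleGraph V) (k : ℕ) (r : ℝ), 0 < r →
      r * Fintype.card V ≤ big G k →
      ∀ (W : Type) [Fintype W] (T : SimpleGraph W), T.IsTree → Fintype.card W = k + 1 →
        Lobster T →
        ((∃ A : Finset W, IsColourClass T A ∧
            ((nonleaves T : ℝ) - 2) * r + ((A.card : ℝ) + bare T A - 1) * (1 - r) < k * r) ∨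
          (1 / 2 ≤ r ∧ 2 * nonleaves T + bare T ∅ ≤ k + 4) ∨
          (1 / 2 ≤ r ∧ ∀ v, 2 ≤ T.degree v → ∃ z, T.Adj v z ∧ T.degree z = 1)) →
        Contains G T := by
  intro V _ _ G k r hr hL W _ T hT hW hlob h
  rcases h with ⟨A, hA, h⟩ | ⟨hr2, h⟩ | ⟨hr2, h⟩
  · exact lob_case hr hL hT hW hA hlob h
  · exact lob_half (half_of_le hr2 hL) hT hW hlob h
  · apply lob_half (half_of_le hr2 hL) hT hW hlob
    have h1 := bare_zero h
    have h2 := leaves_ge T 1 (by
      intro v hv
      obtain ⟨z, hz, hz1⟩ := h v hv
      rw [Nat.one_le_iff_ne_zero, ← Nat.pos_iff_ne_zero, Finset.card_pos]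
      exact ⟨z, by rw [Finset.mem_filter]; exact ⟨Finset.mem_univ _, hz, by omega⟩⟩)
    omega
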