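import Pool.Agent.LKS.Final

/-!
# The Komlós–Sós median degree conjecture for graphs with small codegrees (helper29)
-/

set_option autoImplicit false
set_option linter.unusedSectionVars false

namespace Pool.Agent.LKS

open scoped Classical

/-- The number of vertices of degree at least `k`. -/
noncomputable def big {V : Type} [Fintype V] (G : SimpleGraph V) (k : ℕ) : ℕ :=
  (Finset.univ.filter fun v : V => k ≤ G.degree v).card

/-- The number of common neighbours of `p` and `q`. -/
noncomputable def codeg {V : Type} [Fintype V] (G : SimpleGraph V) (p q : V) : ℕ :=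
  (Finset.univ.filter fun z : V => G.Adj p z ∧ G.Adj q z).card

/-- `A` is one of the two colour classes of the bipartite graph `T`. -/
def IsColourClass {W : Type} (T : SimpleGraph W) (A : Finset W) : Prop :=
  ∀ a b : W, T.Adj a b → (a ∈ A ↔ b ∉ A)

/-- The smaller colour class of a tree. -/
theorem exists_class {W : Type} [Fintype W] {T : SimpleGraph W} (hT : T.IsTree) {k : ℕ}
    (hW : Fintype.card W = k + 1) :
    ∃ A : Finset W, IsColourClass T A ∧ 2 * A.card ≤ k + 1 := by
  let col := hT.coloringTwo
  have hval : ∀ a b, T.Adj a b → col a ≠ col b := fun a b hab => col.valid hab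
  have htwo : ∀ x y : Fin 2, x ≠ y → (x = 0 ↔ ¬y = 0) := by decide
  set A₀ : Finset W := Finset.univ.filter fun w => col w = 0 with hA₀
  have h1 : ∀ a b : W, T.Adj a b → (a ∈ A₀ ↔ b ∉ A₀) := by
    intro a b hab
    rw [hA₀, Finset.mem_filter, Finset.mem_filter]
    have := htwo _ _ (hval a b hab)
    simp only [Finset.mem_univ, true_and]
    exact this
  have hc : A₀.card + A₀ᶜ.card = k + 1 := by
    rw [Finset.card_add_card_compl, hW]
  rcases le_total A₀.card A₀ᶜ.card with h | h
  · exact ⟨A₀, h1, by omega⟩
  · refine ⟨A₀ᶜ, ?_, by omega⟩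
    intro a b hab
    rw [Finset.mem_compl, Finset.mem_compl, not_not]
    have := h1 a b hab
    tauto

end Pool.Agent.LKS

open Pool.Agent.LKS

/-- Let `r ≤ 1 / 2` and let `G` be a graph in which any two distinct vertices have at most
`max 1 (r k / 50000)` common neighbours. If at least `r |V(G)|` vertices of `G` have degree at
least `k`, then `G` contains every tree with `k` edges which has a colour class of at most
`r (k + 1)` vertices. For `r = 1 / 2` these are all trees with `k` edges. -/
theorem Pool.Agent.Results.MP_f23545_co.SmallCodegree.result :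
    ∀ (V : Type) [Fintype V] [Nonempty V] (G : SimpleGraph V) (k τ : ℕ) (r : ℝ),
      (∀ p q : V, p ≠ q → codeg G p q ≤ τ) → (τ ≤ 1 ∨ 50000 * (τ : ℝ) ≤ r * k) →
      r ≤ 1 / 2 → r * Fintype.card V ≤ big G k →
      ∀ (W : Type) [Fintype W] (T : SimpleGraph W), T.IsTree → Fintype.card W = k + 1 →
        (r = 1 / 2 ∨ ∃ A : Finset W, IsColourClass T A ∧ (A.card : ℝ) ≤ r * (k + 1)) →
        ∃ f : W → V, Function.Injective f ∧ ∀ a b : W, T.Adj a b → G.Adj (f a) (f b) := by
  classical
  intro V _ _ G k τ r hG hτ hr hL W _ T hT hW hA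
  obtain ⟨A, hA1, hA2⟩ : ∃ A : Finset W, IsColourClass T A ∧ (A.card : ℝ) ≤ r * (k + 1) := by
    rcases hA with rfl | h
    · obtain ⟨A, h1, h2⟩ := exists_class hT hW
      refine ⟨A, h1, ?_⟩
      have h3 : ((2 * A.card : ℕ) : ℝ) ≤ ((k + 1 : ℕ) : ℝ) := by exact_mod_cast h2
      push_cast at h3
      linarith
    · exact h
  have hk : (0 : ℝ) ≤ (k : ℝ) + 1 := by positivity
  have h1 : 2 * A.card ≤ k + 1 := by
    have h2 : ((2 * A.card : ℕ) : ℝ) ≤ ((k + 1 : ℕ) : ℝ) := by
      push_cast
      nlinarith
    exact_mod_cast h2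
  have h2 : A.card * Fintype.card V ≤ (k + 1) * big G k := by
    have h3 : ((A.card * Fintype.card V : ℕ) : ℝ) ≤ (((k + 1) * big G k : ℕ) : ℝ) := by
      push_cast
      calc (A.card : ℝ) * Fintype.card V ≤ (r * (k + 1)) * Fintype.card V :=
            mul_le_mul_of_nonneg_right hA2 (Nat.cast_nonneg _)
        _ = (k + 1) * (r * Fintype.card V) := by ring
        _ ≤ (k + 1) * big G k := mul_le_mul_of_nonneg_left hL hk
    exact_mod_cast h3
  have h3 : τ ≤ 1 ∨ 15000 * τ ≤ A.card ∨
      (2 * A.card - 2) * big G k + (2 * A.card - 2) * Fintype.card V < k * big G k := by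
    rcases Nat.lt_or_ge 1 τ with h4 | h4
    · right
      rcases hτ with hτ | hτ
      · exact absurd hτ (by omega)
      rcases Nat.lt_or_ge A.card (15000 * τ) with h5 | h5
      · right
        have hτ0 : (0 : ℝ) < τ := by exact_mod_cast (by omega : 0 < τ)
        have hk0 : (0 : ℝ) < k := by
          rcases Nat.eq_zero_or_pos k with h | h
          · rw [h] at hτ
            norm_num at hτ
            linarith
          · exact_mod_cast h
        have hr0 : 0 < r := by
          by_contra hcon
          push Not at hcon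
          nlinarith
        have hn0 : (0 : ℝ) < Fintype.card V := by exact_mod_cast Fintype.card_pos
        have hl0 : (0 : ℝ) < big G k := lt_of_lt_of_le (mul_pos hr0 hn0) hL
        have h6 : ((2 * A.card - 2 : ℕ) : ℝ) ≤ 3 / 5 * (r * k) := by
          have h7 : ((2 * A.card - 2 : ℕ) : ℝ) ≤ ((30000 * τ : ℕ) : ℝ) := by
            exact_mod_cast (by omega : 2 * A.card - 2 ≤ 30000 * τ)
          push_cast at h7
          linarith
        have h8 : ((2 * A.card - 2 : ℕ) : ℝ) * big G k ≤ 3 / 10 * (k * big G k) := by
          have h9 : 3 / 5 * (r * k) ≤ 3 / 10 * (k : ℝ) := by nlinarith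
          calc ((2 * A.card - 2 : ℕ) : ℝ) * big G k ≤ (3 / 10 * (k : ℝ)) * big G k :=
                mul_le_mul_of_nonneg_right (h6.trans h9) hl0.le
            _ = _ := by ring
        have h9 : ((2 * A.card - 2 : ℕ) : ℝ) * Fintype.card V ≤ 3 / 5 * (k * big G k) := by
          calc ((2 * A.card - 2 : ℕ) : ℝ) * Fintype.card V
              ≤ (3 / 5 * (r * k)) * Fintype.card V := mul_le_mul_of_nonneg_right h6 hn0.le
            _ = 3 / 5 * (k * (r * Fintype.card V)) := by ring
            _ ≤ 3 / 5 * (k * big G k) := by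
                have := mul_le_mul_of_nonneg_left hL hk0.le
                linarith
        have h10 : (0 : ℝ) < k * big G k := mul_pos hk0 hl0
        have h11 : (((2 * A.card - 2) * big G k + (2 * A.card - 2) * Fintype.card V : ℕ) : ℝ) <
            ((k * big G k : ℕ) : ℝ) := by
          push_cast
          linarith
        exact_mod_cast h11
      · exact Or.inl h5
    · exact Or.inl h4
  obtain ⟨f, hf1, hf2, -⟩ := main_codeg hT hW hG hA1 h1 h2 h3
  exact ⟨f, hf1, hf2⟩
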